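import Pool.Agent.E8helper43.ER.Stm

/-!
# Project ER (MP_d7e043_co), piece SPX (helper52)
-/

set_option autoImplicit false

namespace Pool.Agent.E8helper52.ER

open Finset Pool.Agent.E8helper43.ER

open Classical in
theorem t_SPX (h1 : S_LINE) (h2 : S_REG) : S_SPX := by
  intro ι _ m g η hη
  rcases isEmpty_or_nonempty ι with hι | hι
  · intro r
    exact ⟨0, fun c => ⟨fun i => (hι.false i).elim, fun i => (hι.false i).elim,
      fun i => (hι.false i).elim⟩⟩
  have hcard : (0 : ℝ) < Fintype.card ι := by exact_mod_cast Fintype.card_pos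
  have hε : 0 < η / (4 * Fintype.card ι * (m + 1)) := by positivity
  have h3 : ∀ l : Fin m, ∃ D : ι → ι → ℝ, Ram D ∧ (∀ i, D i i = 0) ∧
      (∀ i j, D i j = D j i) ∧
      ∀ i j, |D i j - (g i l - g j l) ^ 2| ≤ η / (4 * Fintype.card ι * (m + 1)) :=
    fun l => h1 ι (fun i => g i l) _ hε
  choose D hD1 hD2 hD3 hD4 using h3
  have hsum : Ram fun i j : ι => ∑ l : Fin m, (1 : ℝ) * D l i j :=
    Ram.sum univ (fun _ => (1 : ℝ)) D (fun _ _ => zero_le_one) (fun l _ => hD1 l)
  have hreg : Ram fun i j : ι => dist (g i) (g j) ^ 2 + (if i = j then 0 else η) -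
      ∑ l : Fin m, (1 : ℝ) * D l i j := by
    refine h2 ι _ η hη ?_ ?_ ?_
    · intro i
      simp [hD2]
    · intro i j
      rw [dist_comm (g i) (g j)]
      have e1 : (if i = j then (0 : ℝ) else η) = if j = i then 0 else η := by
        by_cases h : i = j
        · rw [if_pos h, if_pos h.symm]
        · rw [if_neg h, if_neg (Ne.symm h)]
      rw [e1]
      congr 1
      exact Finset.sum_congr rfl fun l _ => by rw [hD3 l i j]
    · intro i j hij
      rw [if_neg hij, dist_sq]
      have e1 : ∑ l, (g i l - g j l) ^ 2 + η - ∑ l : Fin m, (1 : ℝ) * D l i j - η =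
          -∑ l : Fin m, (D l i j - (g i l - g j l) ^ 2) := by
        rw [Finset.sum_sub_distrib]
        simp only [one_mul]
        ring
      rw [e1, abs_neg]
      refine (Finset.abs_sum_le_sum_abs _ _).trans ?_
      refine (Finset.sum_le_sum fun l _ => hD4 l i j).trans ?_
      rw [Finset.sum_const, Finset.card_univ, Fintype.card_fin, nsmul_eq_mul]
      have e2 : η / (4 * Fintype.card ι * (m + 1)) = η / (4 * Fintype.card ι) / (m + 1) := by
        rw [div_div]
      rw [e2]
      have e3 : 0 ≤ η / (4 * Fintype.card ι) := by positivity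
      have e4 : (0 : ℝ) < (m : ℝ) + 1 := by positivity
      rw [← mul_div_assoc, div_le_iff₀ e4]
      nlinarith
  have hadd := hsum.add hreg
  have hfun : (fun i j : ι => ∑ l : Fin m, (1 : ℝ) * D l i j +
      (dist (g i) (g j) ^ 2 + (if i = j then 0 else η) - ∑ l : Fin m, (1 : ℝ) * D l i j)) =
      fun i j : ι => dist (g i) (g j) ^ 2 + if i = j then 0 else η := by
    funext i j
    ring
  rw [hfun] at hadd
  exact hadd

end Pool.Agent.E8helper52.ER
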